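import Pool.Agent.Helper5.FRD.Goals

/-!
# STARB (project FRD, MP_79b960_co)

The star with at most one looping leaf.
-/

set_option autoImplicit false

namespace Pool.Agent.Helper75.FRD.STARB

open Finset
open Pool.Agent.Helper5.FRC
open Pool.Agent.Helper5.FRD

section

variable {V : Type} [DecidableEq V]

omit [DecidableEq V] in
/-- A finite set with an involution without fixed points is even. -/
theorem even_invol (S : Finset V) (t : V → V) (h : ∀ x ∈ S, t x ∈ S ∧ t (t x) = x ∧ t x ≠ x) :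
    Even S.card := by
  have h1 : ∑ x ∈ S, (1 : ZMod 2) = 0 := by
    refine Finset.sum_involution (fun a _ => t a) ?_ ?_ ?_ ?_
    · intro a _
      exact CharTwo.add_self_eq_zero _
    · intro a ha _
      exact (h a ha).2.2
    · intro a ha
      exact (h a ha).1
    · intro a ha
      exact (h a ha).2.1
  rw [Finset.sum_const, nsmul_eq_mul, mul_one] at h1
  exact (ZMod.natCast_eq_zero_iff_even).mp h1

/-- Leaving out one point of a set. -/
theorem dm_sdiff (t : V → V) (S Y : Finset V) (x : V) (h : ∀ v ∈ S, v ∈ Y → v = x) :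
    dm t S ≤ dm t (S \ Y) + 1 := by
  unfold dm
  have h1 : (S.filter fun v => t v ∉ S) ⊆
      insert x ((S \ Y).filter fun v => t v ∉ S \ Y) := by
    intro v hv
    rw [Finset.mem_filter] at hv
    rw [Finset.mem_insert]
    by_cases hY : v ∈ Y
    · exact Or.inl (h v hv.1 hY)
    · right
      rw [Finset.mem_filter, Finset.mem_sdiff]
      exact ⟨⟨hv.1, hY⟩, fun h' => hv.2 (Finset.mem_sdiff.mp h').1⟩
  exact (Finset.card_le_card h1).trans (Finset.card_insert_le _ _)

end

theorem t (hN : Pool.Agent.Helper5.FRC.NprStmt) (hSl : Pool.Agent.Helper5.FRC.SlideStmt)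
    (_hCh : ChainStmt) (hF : FinStmt) (_hSu : Pool.Agent.Helper5.FRC.SubmStmt) : StarbStmt := by
  intro V _ _ n A t₀ C Z hFive p₀ t hAlg hRed hst h51 h52
  have hFive' := hFive
  obtain ⟨hn, hP₀, hB, hC, hO, hD, hZc, hZe, hDZ, hA⟩ := hFive'
  obtain ⟨hP, hLift, hSub⟩ := hRed
  -- disjointness
  have hdis : ∀ i j x, x ∈ C i → x ∈ C j → i = j := by
    intro i j x hi hj
    by_contra hij
    exact (Finset.disjoint_left.mp (hD i j hij)) hi hj
  have hCZ : ∀ i, ∀ x ∈ C i, x ∉ Z := fun i x hx => Finset.disjoint_left.mp (hDZ i) hx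
  have hCA' : ∀ i, C i ⊆ A := by
    intro i x hx
    rw [hA]
    exact Finset.mem_union_left _ (Finset.mem_biUnion.mpr ⟨i, Finset.mem_univ i, hx⟩)
  have hZA : Z ⊆ A := by
    intro x hx
    rw [hA]
    exact Finset.mem_union_right _ hx
  have hCA : ∀ i, C i ⊆ A \ Z := by
    intro i x hx
    exact Finset.mem_sdiff.mpr ⟨hCA' i hx, hCZ i x hx⟩
  have hAC : ∀ x ∈ A \ Z, ∃ i, x ∈ C i := by
    intro x hx
    rw [Finset.mem_sdiff, hA, Finset.mem_union] at hx
    obtain ⟨i, -, hi⟩ := Finset.mem_biUnion.mp (hx.1.resolve_right hx.2)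
    exact ⟨i, hi⟩
  have htA : ∀ x ∈ A \ Z, t x ∈ A \ Z := fun x hx => (hP x hx).1
  have htt : ∀ x ∈ A \ Z, t (t x) = x := fun x hx => (hP x hx).2.1
  have htn : ∀ x ∈ A \ Z, t x ≠ x := fun x hx => (hP x hx).2.2
  -- the number of edges between `C i` and `C 3`
  have hodd : ∀ i, Odd (dm t (C i)) := by
    intro i
    have h1 : ((C i).filter fun x => t x ∈ C i).card + ((C i).filter fun x => ¬ t x ∈ C i).card
        = (C i).card := Finset.card_filter_add_card_filter_not _
    have h2 : Even ((C i).filter fun x => t x ∈ C i).card := by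
      refine even_invol _ t ?_
      intro x hx
      rw [Finset.mem_filter] at hx
      have hxA := hCA i hx.1
      refine ⟨?_, htt x hxA, htn x hxA⟩
      rw [Finset.mem_filter, htt x hxA]
      exact ⟨hx.2, hx.1⟩
    have h3 := hO i
    rw [← h1, Nat.odd_add'] at h3
    exact h3.mpr h2
  -- the sets `E i` and `F i`
  have hE : ∀ i : Fin 4, i ≠ 3 → (C i).filter (fun x => t x ∉ C i) =
      (C i).filter fun x => t x ∈ C 3 := by
    intro i hi
    ext x
    rw [Finset.mem_filter, Finset.mem_filter]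
    refine and_congr_right fun hx => ?_
    constructor
    · intro h
      exact (hst i hi x hx).resolve_left h
    · intro h h'
      exact hi (hdis i 3 _ h' h)
  have hF' : ∀ i : Fin 4, i ≠ 3 → ((C 3).filter fun x => t x ∈ C i).card = dm t (C i) := by
    intro i hi
    unfold dm
    rw [hE i hi]
    refine Finset.card_bij' (fun x _ => t x) (fun x _ => t x) ?_ ?_ ?_ ?_
    · intro x hx
      rw [Finset.mem_filter] at hx ⊢
      rw [htt x (hCA 3 hx.1)]
      exact ⟨hx.2, hx.1⟩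
    · intro x hx
      rw [Finset.mem_filter] at hx ⊢
      rw [htt x (hCA i hx.1)]
      exact ⟨hx.2, hx.1⟩
    · intro x hx
      rw [Finset.mem_filter] at hx
      exact htt x (hCA 3 hx.1)
    · intro x hx
      rw [Finset.mem_filter] at hx
      exact htt x (hCA i hx.1)
  -- the data for SLIDE
  set b : V → V := fun x => if t x ∈ C 3 then t x else x with hb
  set col : V → Fin 3 := fun x => if t x ∈ C 0 then 0 else if t x ∈ C 1 then 1 else 2 with hcol
  have hbC : ∀ x ∈ C 3, b x ∈ C 3 ∧ b (b x) = x := by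
    intro x hx
    by_cases h : t x ∈ C 3
    · have e1 : b x = t x := by simp only [hb, if_pos h]
      have e2 : b (t x) = x := by
        simp only [hb]
        rw [htt x (hCA 3 hx), if_pos hx]
      rw [e1, e2]
      exact ⟨h, rfl⟩
    · have e1 : b x = x := by simp only [hb, if_neg h]
      rw [e1, e1]
      exact ⟨hx, rfl⟩
  have hbf : ∀ x ∈ C 3, (b x = x ↔ t x ∉ C 3) := by
    intro x hx
    constructor
    · intro h h'
      have e1 : b x = t x := by simp only [hb, if_pos h']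
      rw [e1] at h
      exact htn x (hCA 3 hx) h
    · intro h
      simp only [hb, if_neg h]
  have hcc : ∀ x ∈ C 3, t x ∉ C 3 → ∀ i : Fin 3, (col x = i ↔ t x ∈ C i.castSucc) := by
    intro x hx h i
    obtain ⟨j, hj⟩ := hAC (t x) (htA x (hCA 3 hx))
    have d : ∀ k, t x ∈ C k ↔ k = j := fun k =>
      ⟨fun hk => hdis k j _ hk hj, fun hk => hk ▸ hj⟩
    have hj3 : j ≠ 3 := fun e => h (e ▸ hj)
    simp only [hcol, d]
    fin_cases i <;> fin_cases j <;> simp at hj3 ⊢
  have hFi : ∀ i : Fin 3, ((C 3).filter fun x => b x = x ∧ col x = i) =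
      (C 3).filter fun x => t x ∈ C i.castSucc := by
    intro i
    ext x
    rw [Finset.mem_filter, Finset.mem_filter]
    refine and_congr_right fun hx => ?_
    rw [hbf x hx]
    constructor
    · rintro ⟨h1, h2⟩
      exact (hcc x hx h1 i).mp h2
    · intro h1
      have h2 : t x ∉ C 3 := by
        intro h2
        have := hdis _ _ _ h1 h2
        revert this
        fin_cases i <;> simp
      exact ⟨h2, (hcc x hx h2 i).mpr h1⟩
  have hi3 : ∀ i : Fin 3, i.castSucc ≠ (3 : Fin 4) := by decide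
  obtain ⟨p, hp, q, Y3, hY3, hq, hpY, hcl, hone⟩ := hSl V n (C 3) (hC 3) (hO 3) b col hbC
    (fun i => by rw [hFi i, hF' _ (hi3 i)]; exact hodd _)
  -- the points `y i`
  have hone' : ∀ i : Fin 3, ∃ y ∈ Y3, t y ∈ C i.castSucc ∧
      ∀ x ∈ Y3, t x ∈ C i.castSucc → x = y := by
    intro i
    obtain ⟨y, hy⟩ := Finset.card_eq_one.mp (hone i)
    have e : ∀ x, (x ∈ Y3 ∧ t x ∈ C i.castSucc) ↔ x = y := by
      intro x
      rw [← Finset.mem_singleton, ← hy, Finset.mem_filter]
      refine and_congr_right fun hx => ?_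
      have h1 : x ∈ (C 3).filter (fun x => b x = x ∧ col x = i) ↔
          x ∈ (C 3).filter fun x => t x ∈ C i.castSucc := by rw [hFi i]
      rw [Finset.mem_filter, Finset.mem_filter] at h1
      have h2 := hY3 hx
      simp only [h2, true_and] at h1
      exact h1.symm
    have h2 := (e y).mpr rfl
    exact ⟨y, h2.1, h2.2, fun x hx hx' => (e x).mp ⟨hx, hx'⟩⟩
  choose y hyY hyC hyu using hone'
  -- the pairings
  have hQ : ∀ i : Fin 3, ∃ q' : V → V, Npr n (C i.castSucc) (t (y i)) q' := fun i =>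
    hN V n (C i.castSucc) (hC _) (hO _) _ (hyC i)
  choose Q' hQ' using hQ
  obtain ⟨Q, pt, hQpt, hQ3, hpt3, hpti⟩ : ∃ (Q : Fin 4 → V → V) (pt : Fin 4 → V),
      (∀ i, Npr n (C i) (pt i) (Q i)) ∧ Q 3 = q ∧ pt 3 = p ∧
        ∀ i : Fin 3, pt i.castSucc = t (y i) := by
    refine ⟨Fin.snoc (α := fun _ => V → V) Q' q, Fin.snoc (α := fun _ => V) (fun i => t (y i)) p,
      ?_, ?_, ?_, ?_⟩
    · intro i
      refine Fin.lastCases ?_ ?_ i
      · rw [Fin.snoc_last, Fin.snoc_last]
        exact hq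
      · intro j
        rw [Fin.snoc_castSucc, Fin.snoc_castSucc]
        exact hQ' j
    · exact Fin.snoc_last (α := fun _ => V → V) _ _
    · exact Fin.snoc_last (α := fun _ => V) _ _
    · intro i
      exact Fin.snoc_castSucc (α := fun _ => V) _ _ _
  obtain ⟨P, hPQ, hPZ⟩ : ∃ P : V → V, (∀ i, ∀ v ∈ C i, P v = Q i v) ∧ ∀ v ∈ Z, P v = p₀ v := by
    classical
    refine ⟨fun v => if v ∈ Z then p₀ v else if h : ∃ i, v ∈ C i then Q h.choose v else v, ?_, ?_⟩
    · intro i v hv
      have h : ∃ i, v ∈ C i := ⟨i, hv⟩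
      have e : h.choose = i := hdis _ _ _ h.choose_spec hv
      simp only [if_neg (hCZ i v hv), dif_pos h, e]
    · intro v hv
      simp only [if_pos hv]
  have hsplit : ∀ j : Fin 4, j = 3 ∨ ∃ i : Fin 3, j = i.castSucc := by decide
  have hzY3 : ∀ i : Fin 3, t (y i) ∉ C 3 := fun i h => hi3 i (hdis _ _ _ (hyC i) h)
  have hyA : ∀ i, y i ∈ A \ Z := fun i => hCA 3 (hY3 (hyY i))
  -- membership in `Y'`
  obtain ⟨Y', hmY'⟩ : ∃ Y' : Finset V, ∀ x, x ∈ Y' ↔ x ∈ Y3 ∨ ∃ i : Fin 3, t (y i) = x := by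
    refine ⟨Y3 ∪ Finset.univ.image fun i : Fin 3 => t (y i), fun x => ?_⟩
    rw [Finset.mem_union, Finset.mem_image]
    simp
  have hY'A : Y' ⊆ A \ Z := by
    intro x hx
    rcases (hmY' x).mp hx with h | ⟨i, rfl⟩
    · exact hCA 3 (hY3 h)
    · exact hCA _ (hyC i)
  have hY't : ∀ v ∈ Y', t v ∈ Y' := by
    intro v hv
    rcases (hmY' v).mp hv with h | ⟨i, rfl⟩
    · have hv3 := hY3 h
      have hc := hcl v h
      by_cases ht : t v ∈ C 3
      · have e1 : b v = t v := by simp only [hb, if_pos ht]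
        rw [e1] at hc
        exact (hmY' _).mpr (Or.inl hc.2)
      · have h5 := (hcc v hv3 ht (col v)).mp rfl
        have h6 := hyu _ v h h5
        exact (hmY' _).mpr (Or.inr ⟨col v, by rw [← h6]⟩)
    · rw [htt _ (hyA i)]
      exact (hmY' _).mpr (Or.inl (hyY i))
  have hdm0 : dm t Y' = 0 := by
    unfold dm
    rw [Finset.card_eq_zero, Finset.filter_eq_empty_iff]
    intro v hv h
    exact h (hY't v hv)
  obtain ⟨W, hWZ, hWp, hWdm⟩ := hLift Y' hY'A
  rw [hdm0] at hWdm
  obtain ⟨Y, hmY⟩ : ∃ Y : Finset V, ∀ x, x ∈ Y ↔ x ∈ Y' ∨ x ∈ W :=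
    ⟨Y' ∪ W, fun x => Finset.mem_union⟩
  have hYeq : Y = Y' ∪ W := by
    ext x
    rw [hmY, Finset.mem_union]
  have hYt : ∀ v ∈ Y, t₀ v ∈ Y := by
    intro v hv
    by_contra h
    rw [← hYeq] at hWdm
    unfold dm at hWdm
    rw [Finset.card_eq_zero, Finset.filter_eq_empty_iff] at hWdm
    exact hWdm hv h
  have hYA : Y ⊆ A := by
    intro x hx
    rcases (hmY x).mp hx with h | h
    · exact (Finset.mem_sdiff.mp (hY'A h)).1
    · exact hZA (hWZ h)
  have hYZ : ∀ x ∈ Z, (x ∈ Y ↔ x ∈ W) := by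
    intro x hx
    rw [hmY]
    exact ⟨fun h => h.resolve_left fun h' => (Finset.mem_sdiff.mp (hY'A h')).2 hx, Or.inr⟩
  have hYC : ∀ i, ∀ x ∈ C i, (x ∈ Y ↔ x ∈ Y') := by
    intro i x hx
    rw [hmY]
    exact ⟨fun h => h.resolve_right fun h' => hCZ i x hx (hWZ h'), Or.inl⟩
  have hY3' : ∀ x ∈ C 3, (x ∈ Y ↔ x ∈ Y3) := by
    intro x hx
    rw [hYC 3 x hx, hmY']
    refine ⟨fun h => h.resolve_right ?_, Or.inl⟩
    rintro ⟨i, rfl⟩
    exact hzY3 i hx
  have hYi : ∀ i : Fin 3, ∀ x ∈ C i.castSucc, (x ∈ Y ↔ x = t (y i)) := by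
    intro i x hx
    rw [hYC _ x hx, hmY']
    constructor
    · rintro (h | ⟨j, h⟩)
      · exact absurd (hdis _ _ _ hx (hY3 h)) (hi3 i)
      · have h1 : i.castSucc = j.castSucc := hdis _ _ _ hx (h ▸ hyC j)
        have h2 : i = j := Fin.castSucc_injective _ h1
        rw [h2, h]
    · intro h
      exact Or.inr ⟨i, h.symm⟩
  have hptC : ∀ i, pt i ∈ C i := by
    intro i
    rcases hsplit i with rfl | ⟨j, rfl⟩
    · rw [hpt3]; exact hp
    · rw [hpti]; exact hyC j
  have hptY : ∀ i, pt i ∈ Y := by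
    intro i
    rcases hsplit i with rfl | ⟨j, rfl⟩
    · rw [hpt3, hmY, hmY']; exact Or.inl (Or.inl hpY)
    · rw [hpti, hmY, hmY']; exact Or.inl (Or.inr ⟨j, rfl⟩)
  -- the numbers of leaving edges
  have hdmi : ∀ i : Fin 3, ∀ t₁ : V → V, dm t₁ (C i.castSucc) ≤ dm t₁ (C i.castSucc \ Y) + 1 :=
    fun i t₁ => dm_sdiff t₁ _ _ (t (y i)) fun v hv hvY => (hYi i v hv).mp hvY
  have hdm3 : 4 ≤ dm t (C 3 \ Y) := by
    have h1 : 5 ≤ ((C 3).filter fun x => t x ∈ C (1 : Fin 3).castSucc).card := by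
      rw [hF' _ (hi3 1)]
      exact h51
    have h2 : (((C 3).filter fun x => t x ∈ C (1 : Fin 3).castSucc).erase (y 1)) ⊆
        (C 3 \ Y).filter fun x => t x ∉ C 3 \ Y := by
      intro x hx
      rw [Finset.mem_erase, Finset.mem_filter] at hx
      rw [Finset.mem_filter, Finset.mem_sdiff]
      refine ⟨⟨hx.2.1, fun h => hx.1 (hyu 1 x ((hY3' x hx.2.1).mp h) hx.2.2)⟩, fun h => ?_⟩
      exact hi3 1 (hdis _ _ _ hx.2.2 (Finset.mem_sdiff.mp h).1)
    have h3 := Finset.card_le_card h2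
    have h4 : 5 - 1 ≤ (((C 3).filter fun x => t x ∈ C (1 : Fin 3).castSucc).erase (y 1)).card :=
      (Nat.sub_le_sub_right h1 1).trans Finset.pred_card_le_card_erase
    unfold dm
    omega
  have hCY : ∀ i, dm t (C i \ Y) ≤ dm t₀ (C i \ Y) := by
    intro i
    have h1 := hSub (C i \ Y) (fun x hx => hCA' i (Finset.mem_sdiff.mp hx).1)
      (fun z hz hzZ => absurd hzZ (hCZ i z (Finset.mem_sdiff.mp hz).1))
    have h2 : (C i \ Y) \ Z = C i \ Y := by
      ext x
      rw [Finset.mem_sdiff]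
      exact ⟨fun h => h.1, fun h => ⟨h, hCZ i x (Finset.mem_sdiff.mp h).1⟩⟩
    rwa [h2] at h1
  have hCZY : ∀ i, dm t (C i \ Y) ≤ dm t₀ ((C i ∪ Z) \ Y) := by
    intro i
    have h1 := hSub ((C i ∪ Z) \ Y) (fun x hx => by
        rcases Finset.mem_union.mp (Finset.mem_sdiff.mp hx).1 with h | h
        · exact hCA' i h
        · exact hZA h)
      (fun z hz hzZ => by
        rw [Finset.mem_sdiff] at hz ⊢
        refine ⟨Finset.mem_union_right _ (hAlg.1 z hzZ).1, fun h => hz.2 ?_⟩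
        have h2 := (hYZ _ (hAlg.1 z hzZ).1).mp h
        have h3 := hWp _ h2
        rw [(hAlg.1 z hzZ).2.1] at h3
        exact (hYZ z hzZ).mpr h3)
    have h2 : ((C i ∪ Z) \ Y) \ Z = C i \ Y := by
      ext x
      simp only [Finset.mem_sdiff, Finset.mem_union]
      constructor
      · rintro ⟨⟨h | h, h'⟩, h''⟩
        · exact ⟨h, h'⟩
        · exact absurd h h''
      · rintro ⟨h, h'⟩
        exact ⟨⟨Or.inl h, h'⟩, hCZ i x h⟩
    rwa [h2] at h1
  have hdmA : ∀ i, 4 ≤ dm t₀ (C i \ Y) := by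
    intro i
    rcases hsplit i with rfl | ⟨j, rfl⟩
    · exact hdm3.trans (hCY 3)
    · have h1 := hB (C j.castSucc) (hCA' _) (hC _).2.1 (hO _)
      have h2 := hdmi j t₀
      omega
  -- the application of FIN
  have hfin : 1 ≤ dm t₀ ((C 0 ∪ Z) \ Y) → SolH n A t₀ := by
    intro h0
    refine hF V n A t₀ C Z hFive P Y hYA ?_ ?_ ?_ ?_ ?_ hdmA ?_
    · intro v hv
      by_cases hvZ : v ∈ Z
      · obtain ⟨h1, h2, h3⟩ := hAlg.1 v hvZ
        rw [hPZ v hvZ, hPZ _ h1]
        exact ⟨hZA h1, h2, Or.inr (hAlg.2 v hvZ)⟩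
      · obtain ⟨i, hi⟩ := hAC v (Finset.mem_sdiff.mpr ⟨hv, hvZ⟩)
        obtain ⟨h1, h2, h4, -⟩ := hQpt i v hi
        rw [hPQ i v hi, hPQ i _ h1]
        exact ⟨hCA' i h1, h2, h4⟩
    · intro v hv
      refine ⟨hYt v hv, ?_⟩
      rcases (hmY v).mp hv with h | h
      · rcases (hmY' v).mp h with h | ⟨i, rfl⟩
        · have hv3 := hY3 h
          rw [hPQ 3 v hv3, hQ3, hmY, hmY']
          exact Or.inl (Or.inl (hcl v h).1)
        · rw [hPQ _ _ (hyC i)]
          have h5 := ((hQpt i.castSucc _ (hyC i)).2.2.2).mpr (hpti i).symm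
          rw [h5]
          exact hv
      · rw [hPZ v (hWZ h), hmY]
        exact Or.inr (hWp v h)
    · intro v hv hPv
      by_cases hvZ : v ∈ Z
      · rw [hPZ v hvZ] at hPv
        exact absurd hPv (hAlg.1 v hvZ).2.2
      · obtain ⟨i, hi⟩ := hAC v (Finset.mem_sdiff.mpr ⟨hv, hvZ⟩)
        rw [hPQ i v hi] at hPv
        have h1 := ((hQpt i v hi).2.2.2).mp hPv
        refine ⟨h1 ▸ hptY i, ?_⟩
        have hni : n v ∈ C i := (hC i).2.1 v hi
        rw [hPQ i _ hni]
        intro h2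
        have h4 := ((hQpt i _ hni).2.2.2).mp h2
        exact hn v (h4.trans h1.symm)
    · intro i
      unfold fx
      rw [Finset.card_eq_one]
      refine ⟨pt i, ?_⟩
      ext v
      rw [Finset.mem_filter, Finset.mem_singleton]
      constructor
      · rintro ⟨h1, h2⟩
        rw [hPQ i v h1] at h2
        exact ((hQpt i v h1).2.2.2).mp h2
      · rintro rfl
        refine ⟨hptC i, ?_⟩
        rw [hPQ i _ (hptC i)]
        exact ((hQpt i _ (hptC i)).2.2.2).mpr rfl
    · have h1 : fx P Z = 0 := by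
        unfold fx
        rw [Finset.card_eq_zero, Finset.filter_eq_empty_iff]
        intro v hv h
        rw [hPZ v hv] at h
        exact (hAlg.1 v hv).2.2 h
      rw [h1]
      norm_num
    · intro i
      rcases hsplit i with rfl | ⟨j, rfl⟩
      · exact (by norm_num : 1 ≤ 4).trans (hdm3.trans (hCZY 3))
      · have h1 := hCZY j.castSucc
        have h2 := hdmi j t
        have h3 : j = 0 ∨ j = 1 ∨ j = 2 := by
          clear h1 h2
          revert j
          decide
        rcases h3 with rfl | rfl | rfl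
        · exact h0
        · have h4 : 5 ≤ dm t (C (1 : Fin 3).castSucc) := h51
          omega
        · have h4 : 5 ≤ dm t (C (2 : Fin 3).castSucc) := h52
          omega
  by_cases h0 : 1 ≤ dm t₀ ((C 0 ∪ Z) \ Y)
  · exact Or.inl (hfin h0)
  · right
    have h1 := hCZY 0
    have h2 : dm t (C 0) ≤ dm t (C 0 \ Y) + 1 := hdmi 0 t
    obtain ⟨k, hk⟩ := hodd 0
    have hz : dm t₀ ((C 0 ∪ Z) \ Y) = 0 := by omega
    have hleaf : ∀ i : Fin 3, i ≠ 0 → ((C i.castSucc).filter fun x => t₀ x ∈ Z).card ≤ 1 := by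
      intro i hi
      have h3 : ((C i.castSucc).filter fun x => t₀ x ∈ Z) ⊆ {t (y i)} := by
        intro x hx
        rw [Finset.mem_filter] at hx
        rw [Finset.mem_singleton]
        refine (hYi i x hx.1).mp ?_
        by_contra hxY
        have hxx : t₀ (t₀ x) = x := (hP₀ x (hCA' _ hx.1)).2.1
        unfold dm at hz
        rw [Finset.card_eq_zero, Finset.filter_eq_empty_iff] at hz
        refine hz (x := t₀ x) ?_ ?_
        · rw [Finset.mem_sdiff]
          refine ⟨Finset.mem_union_right _ hx.2, fun h => hxY ?_⟩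
          have h4 := hYt _ h
          rwa [hxx] at h4
        · rw [hxx, Finset.mem_sdiff, Finset.mem_union]
          rintro ⟨h | h, -⟩
          · have h5 := hdis _ _ _ hx.1 h
            exact hi (Fin.castSucc_injective _ h5)
          · exact hCZ _ x hx.1 h
      exact (Finset.card_le_card h3).trans (by simp)
    exact ⟨by omega, hleaf 1 (by decide), hleaf 2 (by decide)⟩

end Pool.Agent.Helper75.FRD.STARB
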